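import Pool.Agent.helper31.RLS.Spec

/-!
# Project rls (MP_ad8ced_nt), row CT: cutting
-/

set_option autoImplicit false

namespace Pool.Agent.RLS

open Finset

theorem CT_ex {p : ℕ} {K : Finset ℕ} (hp : p ∉ K) {al be : ℝ}
    (h : (∃ K₁ ⊆ K, ∑ q ∈ K₁, Real.log q ≤ al - Real.log p ∧ ∑ q ∈ K \ K₁, Real.log q ≤ be) ∨
      ∃ K₁ ⊆ K, ∑ q ∈ K₁, Real.log q ≤ al ∧ ∑ q ∈ K \ K₁, Real.log q ≤ be - Real.log p) :
    ∃ K₁ ⊆ insert p K, ∑ q ∈ K₁, Real.log q ≤ al ∧
      ∑ q ∈ insert p K \ K₁, Real.log q ≤ be := by
  rcases h with ⟨K₁, hK, h1, h2⟩ | ⟨K₁, hK, h1, h2⟩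
  · have hp1 : p ∉ K₁ := fun h => hp (hK h)
    refine ⟨insert p K₁, insert_subset_insert p hK, ?_, ?_⟩
    · rw [sum_insert hp1]
      linarith
    · have e : insert p K \ insert p K₁ = K \ K₁ := by
        ext q
        simp only [mem_sdiff, mem_insert]
        constructor
        · rintro ⟨h3 | h3, h4⟩
          · exact absurd (Or.inl h3) h4
          · exact ⟨h3, fun h5 => h4 (Or.inr h5)⟩
        · rintro ⟨h3, h4⟩
          refine ⟨Or.inr h3, ?_⟩
          rintro (h5 | h5)
          · exact hp (h5 ▸ h3)
          · exact h4 h5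
      rw [e]
      exact h2
  · have hp1 : p ∉ K₁ := fun h => hp (hK h)
    refine ⟨K₁, hK.trans (subset_insert p K), h1, ?_⟩
    have e : insert p K \ K₁ = insert p (K \ K₁) := insert_sdiff_of_notMem K hp1
    have hp2 : p ∉ K \ K₁ := fun h => hp (mem_sdiff.1 h).1
    rw [e, sum_insert hp2]
    linarith

theorem CT (h1 : LA_stmt) : CT_stmt := by
  obtain ⟨_, hT, hF, _⟩ := h1
  have key : ∀ K : Finset ℕ, ∀ (b : Bool) (L al be : ℝ), (∀ p ∈ K, 1 ≤ p) → lam b L K ≠ 0 →
      (b = false → ∀ p ∈ K, 2 * Real.log p ≤ L) → 0 ≤ al → 0 ≤ be → al + be = L →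
      ∃ K₁ ⊆ K, ∑ p ∈ K₁, Real.log p ≤ al ∧ ∑ p ∈ K \ K₁, Real.log p ≤ be := by
    intro K
    induction K using Finset.induction_on_max with
    | empty =>
      intro b L al be _ _ _ hal hbe _
      exact ⟨∅, subset_rfl, by simpa using hal, by simpa using hbe⟩
    | insert p K hlt ih =>
      intro b L al be hK hlam hb hal hbe hL
      have hp : p ∉ K := fun h => lt_irrefl p (hlt p h)
      have hp1 : 1 ≤ p := hK p (mem_insert_self p K)
      have hlog : 0 ≤ Real.log p := Real.log_nonneg (by exact_mod_cast hp1)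
      have hK' : ∀ q ∈ K, 1 ≤ q := fun q hq => hK q (mem_insert_of_mem hq)
      -- reduction to the other sign
      have main : ∃ b' : Bool, lam b' (L - Real.log p) K ≠ 0 ∧
          (b' = false → ∀ q ∈ K, 2 * Real.log q ≤ L - Real.log p) ∧ 2 * Real.log p ≤ L := by
        cases b with
        | true =>
          rw [hT L K p hlt] at hlam
          split_ifs at hlam with h3
          · refine ⟨false, ?_, ?_, by linarith⟩
            · exact neg_ne_zero.1 hlam
            · intro _ q hq
              have h4 : Real.log q ≤ Real.log p := by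
                apply Real.log_le_log
                · exact_mod_cast (hK' q hq)
                · exact_mod_cast (hlt q hq).le
              linarith
          · exact absurd rfl hlam
        | false =>
          rw [hF L K p hlt] at hlam
          refine ⟨true, neg_ne_zero.1 hlam, fun h => absurd h (by simp), ?_⟩
          exact hb rfl p (mem_insert_self p K)
      obtain ⟨b', h4, h5, h6⟩ := main
      apply CT_ex hp
      rcases le_total al be with h7 | h7
      · right
        exact ih b' (L - Real.log p) al (be - Real.log p) hK' h4 h5 hal (by linarith) (by linarith)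
      · left
        exact ih b' (L - Real.log p) (al - Real.log p) be hK' h4 h5 (by linarith) hbe (by linarith)
  intro b L al be K
  exact key K b L al be

end Pool.Agent.RLS
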